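import Pool.Agent.Run7.h550.PK.Rigid

/-!
# Extensions whose kernel is a graph product with vertex groups permuted up to conjugacy

`C` is any class of groups with the closure properties `ClosedE C` which contains the groups `F ⋊ ℤ` for
all free groups `F` of any rank and all automorphisms of `F`. All this is published for the class of
groups which satisfy the `K`-theoretic Farrell–Jones conjecture with coefficients in additive
categories and finite wreath products (the groups `F ⋊ ℤ` are due to Bestvina–Fujiwara–Wigglesworth and
Brück–Kielak–Wu).

Let `N` be a normal subgroup of `G` with `G ⧸ N` in `C`, and let `N` be the graph product of its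
nontrivial subgroups `A v` along a graph `Γ` on an arbitrary set `V`, infinite in general.

1. Suppose that the conjugates of the `A v` by the elements of `G` are conjugate in `N` to vertex groups
   (they need not be vertex groups, and there need not be a complement of `N` which permutes the
   vertex groups), and that `A v ⟨g⟩` is in `C` for all `g` in `G` which normalize `A v`. Then `G` is in `C`.
2. If the vertex groups are finitely generated, have property FA of Serre, are centreless and
   directly indecomposable, then every automorphism of `N` permutes the conjugacy classes of the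
   vertex groups (for an arbitrary graph, with infinite cliques for instance).
3. So for such vertex groups, if `C` is closed under all extensions with kernel `A v` for each `v`
   (for instance because `A v` is in `C` and every automorphism of `A v` has an inner power), then `C` is
   closed under all extensions with kernel `N`.

There is no condition on the orbits of `G` on the set of vertices. The case of 1. in which for each
`g` and `v` some `g ^ k`, `k > 0`, is such that no power of it moves `v` to an adjacent vertex (this
includes finite graphs) is in the starting library (`Q30/FJ/GPm`); for free products 1. is the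
starting file `FreeProductExtensions` (`R684/FP`), and when `G = N Q` and `Q` permutes the vertex groups
it is `MP_490288_al.GraphProductKernels` of this run.

Outline of the proof. For a finite set `Δ` of vertices let `ρ_Δ` be the retraction of `N` onto the
subgroup `N_Δ` generated by the `A v`, `v ∈ Δ`, and let `K n` be the group of the elements killed by all
`ρ_Δ` with `|Δ| ≤ n`. The `K n` are normal in `G`, and `K n ⧸ K (n+1)` is the restricted direct product of
the groups `F Δ`, `|Δ| = n + 1`, of the elements of `N_Δ` killed by all `ρ_Δ'`, `Δ' ⊂ Δ`; they are
permuted by `G` in `G ⧸ K (n+1)`. For `n = 0` these are the vertex groups. For `n > 0` the group `F Δ` is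
trivial if `Δ` is a clique, and free otherwise: if `v` and `w` in `Δ` are not adjacent, it meets both
factors of the amalgamated product `N_Δ` of `N_(Δ-v)` and `N_(Δ-w)` trivially. So all `G ⧸ K n` are in
`C`, by the theorem on extensions by regular products (starting library `R684/FP/Reg`). A finite subset of
`N` is contained in some `N_Δ`, which embeds in `G ⧸ K n` for `n ≥ |Δ|`, so the realization criterion
(starting library) applies.

For 2.: finitely generated subgroups with property FA are conjugate into subgroups of finite cliques.
Up to inner automorphisms one gets finite cliques `K₁ ⊆ K₃` and `K₂ ∋ v` with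
`φ(A v) ≤ N_K₁ ≤ φ(N_K₂) ≤ N_K₃`; by the theorem of Krull and Schmidt for products of centreless
indecomposable groups all `A w`, `w ∈ K₁`, are among the direct factors `φ(A u)`, `u ∈ K₂`, of `φ(N_K₂)`,
and hence `φ(A v)` is one of the `A w`.
-/

set_option autoImplicit false

namespace Pool.Agent.Results.MP_5d3e93_al.PermutedConjugacyClasses

open Pool.Agent.Y110.FJ (ClosedE)
open Run7.h550.TK (IsGraphProduct FA Centreless Indec Ext)

theorem result (C : ∀ (G : Type) [Group G], Prop) (hC : ClosedE C)
    (hF : ∀ (X : Type) (α : MulAut (FreeGroup X)),
      C (FreeGroup X ⋊[zpowersHom (MulAut (FreeGroup X)) α] Multiplicative ℤ)) :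
    (∀ (G V : Type) [Group G] (N : Subgroup G) [N.Normal] (Γ : SimpleGraph V)
      (A : V → Subgroup N), IsGraphProduct Γ A → (∀ v, A v ≠ ⊥) →
      (∀ (g : G) (v : V), ∃ (w : V) (m : N), ∀ x : N,
        x ∈ A v ↔ m * MulAut.conjNormal g x * m⁻¹ ∈ A w) →
      (∀ (v : V) (g : G), (∀ x, x ∈ (A v).map N.subtype ↔ g * x * g⁻¹ ∈ (A v).map N.subtype) →
        C ↥((A v).map N.subtype ⊔ Subgroup.zpowers g)) →
      C (G ⧸ N) → C G) ∧
    (∀ (N V : Type) [Group N] (Γ : SimpleGraph V) (A : V → Subgroup N), IsGraphProduct Γ A →
      (∀ v, A v ≠ ⊥) → (∀ v, Group.FG (A v)) → (∀ v, FA (A v)) → (∀ v, Centreless (A v)) →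
      (∀ v, Indec (A v)) → ∀ (φ : MulAut N) (v : V), ∃ (w : V) (g : N),
        ∀ x, x ∈ A v ↔ g⁻¹ * φ x * g ∈ A w) ∧
    (∀ (G V : Type) [Group G] (N : Subgroup G) [N.Normal] (Γ : SimpleGraph V)
      (A : V → Subgroup N), IsGraphProduct Γ A → (∀ v, A v ≠ ⊥) → (∀ v, Group.FG (A v)) →
      (∀ v, FA (A v)) → (∀ v, Centreless (A v)) → (∀ v, Indec (A v)) → (∀ v, Ext C (A v)) →
      C (G ⧸ N) → C G) := by
  refine ⟨?_, ?_, ?_⟩
  · intro G V _ N _ Γ A h hne hp hst hQ
    exact Run7.h550.PK.pk_main hC hF h hne hp hst hQ
  · intro N V _ Γ A h hne hfg hfa hz hi φ v
    exact Run7.h550.PK.rigid_inf h hne hfa hfg hz hi φ v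
  · intro G V _ N _ Γ A h hne hfg hfa hz hi hE hQ
    exact Run7.h550.PK.rigid_ext hC hF h hne hfa hfg hz hi hE hQ

end Pool.Agent.Results.MP_5d3e93_al.PermutedConjugacyClasses
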