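import Pool.Agent.Run7.h390.RA.Inst

/-!
# Polynomial automorphisms of affine space which preserve all but two coordinates

`C` is any class of groups with the closure properties `ClosedE C` (subgroups, finite products, free
products, overgroups of finite index, directed colimits, the extension criterion) which contains the
solvable groups and satisfies `AcylF C`: a finitely generated group that acts on a tree without
inversions, such that for some `k` and `n` the pointwise stabilizers of the paths of length at least
`k` have at most `n` elements, is in `C` if the vertex stabilizers are in `C`. All this is known for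
the class of the groups whose wreath products with finite groups satisfy the K-theoretic Farrell-Jones
conjecture with coefficients in additive categories (Bartels, Lück, Reich, Wegner, and Knopf for `AcylF`);
this class also contains the groups `GL_m(ℚ)` (Rüping).

`GR R` is the group of the automorphisms of the polynomial ring `R[y, z]` over the commutative ring `R`, the
group of the automorphisms of the relative affine plane over `Spec R`. For `R = k[x_1, …, x_m]` it is the
group of the polynomial automorphisms of the affine space of dimension `m + 2` which preserve `m` of the
coordinates. For `m ≥ 1` it contains the wild automorphism of Nagata.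

* (1) Let `R` be a domain of characteristic zero with the field of fractions `K`. If `C` contains every
  group of matrices `Q` in `GL_2(K)` for which there is an `h ≠ 0` in `R` such that `h g` has entries in
  `R` for all `g` in `Q`, then `GR R` is in `C`.
* (2) Let `k` be a field of characteristic zero with `GL_2(k)` in `C`. Then `GR k[x_i, i ∈ σ]` is in `C`
  for every set `σ` of variables.
* (3) Let `C` contain the groups `GL_m(ℚ)`, and let `k` be an algebraic extension of `ℚ`. Then
  `GR k[x_i, i ∈ σ]` is in `C` for every set `σ`, and `GR R` is in `C` for every finitely generated domain
  `R` over `k` with a nonnegative degree function such that the elements of bounded degree are contained in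
  finite-dimensional spaces over `k` (for instance the coordinate rings of affine curves with one place at
  infinity, the graded domains with `R_0 = k`, and polynomial rings over these).
* (4) Whenever `GR R` is in `C`, `R` a domain, then the group of the `R`-automorphisms of
  `R[y, z][t_0, …, t_{n-1}]` which map all the subrings `R[y, z][t_i, …, t_{n-1}]`, `0 ≤ i ≤ n`, onto
  themselves is in `C`, for all `n`.

So for `k` algebraic over `ℚ`, the field of all algebraic numbers for instance, the assertion of Q1 is true
for all subgroups of the groups in (3) and (4), finitely generated or not. For `m = 0` this is the theorem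
on the plane of helper31 (`MP_8f66f0_al.PlaneAutomorphisms`). The general case does not follow from it:
`GR R` embeds in the group of the automorphisms of the plane over `K`, but `GL_2(K)` is not known to be in
`C` if `K` is a field of rational functions of positive transcendence degree over `ℚ`.

Outline of the proof. A finitely generated subgroup of `GR R` is defined over a finitely generated
field `L` in `K`, and acts on the tree of Jung and van der Kulk of the plane over `L`, with
path stabilizers of bounded order. The triangular stabilizers are solvable. An affine stabilizer consists of
the `t` in `GR R` for which `w⁻¹ t w` is affine, for a fixed automorphism `w` over `L`. Its elements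
preserve the `R`-module of the polynomials `a w(y) + b w(z) + c` which are in `R[y, z]`. Some minor `h` of
the coefficients of `w(y)` and `w(z)` at two monomials different from `1` is not zero, and Cramer's rule
shows that `h` is a common denominator of all linear parts (`denom`). This gives (1). For (2) and (3) the
group `Q` acts on the tree of the degree function of `K`, and the stabilizers, whose elements have entries of
bounded degree, are detected by the reductions modulo the powers of a maximal ideal which does not contain
`h` (`bd_mem`, with the theorem of helper909, `MP_98022b_gt.DegreeRings`).
-/

set_option autoImplicit false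

namespace Pool.Agent.Results.MP_5d3e93_al.RelativePlaneAutomorphisms

open Pool.Agent.Y110.FJ (ClosedE)
open Pool.Agent.N509.TX (AcylF)
open _root_.Run7.h909.GT (IsDeg)
open Pool.Agent.Run7.h390.RA
open _root_.Run7.h31.PF (flagSub)

/-- (1) the reduction to groups of matrices with a common denominator (`Den`) -/
def Reduction (C : ∀ (G : Type) [Group G], Prop) : Prop :=
  ∀ (R : Type) [CommRing R] [IsDomain R] [CharZero R], Den C R (FractionRing R) → C (GR R)

/-- (2) polynomial rings -/
def Polynomials (C : ∀ (G : Type) [Group G], Prop) : Prop :=
  ∀ (k σ : Type) [Field k] [CharZero k], C (GL (Fin 2) k) → C (GR (MvPolynomial σ k))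

/-- (3) polynomial rings and affine rings over algebraic extensions of `ℚ` -/
def Arithmetic (C : ∀ (G : Type) [Group G], Prop) : Prop :=
  (∀ m : ℕ, C (GL (Fin m) ℚ)) → ∀ (k : Type) [Field k] [Algebra ℚ k] [Algebra.IsAlgebraic ℚ k],
    (∀ σ : Type, C (GR (MvPolynomial σ k))) ∧
    ∀ (R : Type) [CommRing R] [IsDomain R] [Algebra k R] [Algebra.FiniteType k R]
      (deg : R → WithBot ℤ), IsDeg deg → (∀ x, x ≠ 0 → 0 ≤ deg x) →
      (∀ n : ℕ, ∃ V : Submodule k R, FiniteDimensional k V ∧ ∀ x, deg x ≤ n → x ∈ V) → C (GR R)

/-- (4) automorphisms preserving a flag of subrings -/
def Flags (C : ∀ (G : Type) [Group G], Prop) : Prop :=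
  ∀ (R : Type) [CommRing R] [IsDomain R], C (GR R) →
    ∀ n : ℕ, C (flagSub R (MvPolynomial (Fin 2) R) n)

/-- **The Farrell-Jones class contains the groups of the automorphisms of the relative affine plane.** -/
theorem result (C : ∀ (G : Type) [Group G], Prop) (hC : ClosedE C)
    (hsol : ∀ (S : Type) [Group S], Group.IsSolvable S → C S) (hA : AcylF C) :
    Reduction C ∧ Polynomials C ∧ Arithmetic C ∧ Flags C := by
  have hM : ∀ (G : Type) [Group G], derivedSeries G 2 = ⊥ → C G := fun G _ h => hsol G ⟨⟨2, h⟩⟩
  have h1 : Reduction C := fun R _ _ _ hD => main hC hM hA R (FractionRing R) hD
  have h2 : Polynomials C := fun k σ _ _ hk => h1 _ (poly_den hC hsol hk (FractionRing _))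
  refine ⟨h1, h2, ?_, ?_⟩
  · intro hQ k _ _ _
    have hk : CharZero k := algebraRat.charZero k
    refine ⟨fun σ => h2 k σ (_root_.Run7.h31.PA.GL_alg hC hQ k), ?_⟩
    intro R _ _ _ _ deg hd h0 hfd
    have hR : CharZero R := charZero_of_injective_algebraMap (algebraMap k R).injective
    exact h1 R (aff_den hC hsol hQ k hd h0 hfd (FractionRing R))
  · intro R _ _ h n
    exact _root_.Run7.h31.PF.flag_mem (k := R) (R := MvPolynomial (Fin 2) R) hC hM h n

end Pool.Agent.Results.MP_5d3e93_al.RelativePlaneAutomorphisms
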